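import Mathlib
import Pool.Agent.X202.CondBasis5

set_option autoImplicit false

/-!
# A conditional Schauder basis with Property (A) in a renorming of `ℓ_2`

The basis. Split `ℕ` into consecutive blocks `σ_P`, `|σ_P| = 4^P`, let `(u_i)` be the unit vectors of
`ℓ_2` and `w_P = 2^{-P} ∑_{i ∈ σ_P} u_i`. Let `m` be the matrix with entries
`m(2l+1, 2k) = 1 / ((l-k+1) √(n+1))` for `k ≤ l` in the same dyadic block `n` and `0` otherwise; its
corners `∑_{P < c ≤ Q} m(Q,P)²` are at most `2`, but `m` is unbounded on `ℓ_2`. The basis is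
`b_i = u_i + 2^{-P} ∑_Q m(Q,P) w_Q` for `i ∈ σ_P`; its coordinate functionals are
`u_i - 2^{-Q} ∑_P m(Q,P) w_P`, `i ∈ σ_Q`. The corner bound gives bounded partial sums, and the
unboundedness of `m` gives conditionality. Since `∑_{i ∈ A} 2^{-P(i)} ≤ 3 √|A|`, both the basis and
its dual are democratic with fundamental function `√m`; truncation of the coefficients of a
functional at any level is a uniformly bounded operation.

The norm. `N(x) = sup 14 |A|^{-1/2} ∑_{i ∈ A} |x_i| + |∑_{i ∉ A} (T_l g)_i x_i|` over finite sets `A`,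
functionals `g` of norm at most one with finitely many coefficients, and the levels `l` for which the
mass of `g` above `l` is `min (‖g‖_1, 7 √|A|)`. Adding to `A` a coordinate where `|x_j|` is maximal
does not decrease the value, since the gain `14 (√(|A|+1) - √|A|) |x_j|` of the first part beats the
loss of the second; so only sets `A` containing all top coordinates matter, and for those the value
is invariant under moving the top coordinates. This gives Property (A).
-/

open Filter Topology

namespace Pool.Agent.Results.MP_2eb999_an.ConditionalPropertyA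

section Definitions

variable {V : Type} [NormedAddCommGroup V] [NormedSpace ℝ V]

/-- `∑ a_n x_n = v`, with convergence of the partial sums. -/
def Expands (x : ℕ → V) (a : ℕ → ℝ) (v : V) : Prop :=
  Tendsto (fun n => ∑ i ∈ Finset.range n, a i • x i) atTop (𝓝 v)

/-- `x` is a Schauder basis: every vector has a unique expansion. -/
def IsSchauderBasis (x : ℕ → V) : Prop := ∀ v, ∃! a : ℕ → ℝ, Expands x a v

/-- `x` is unconditional: every expansion converges unconditionally. -/
def IsUnconditional (x : ℕ → V) : Prop :=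
  ∀ (v : V) (a : ℕ → ℝ), Expands x a v → Summable fun i => a i • x i

/-- The sequence `a'` is a greedy rearrangement of the sequence `a`. -/
def IsGreedyRearrangement (a a' : ℕ → ℝ) : Prop :=
  ∃ π : Equiv.Perm ℕ, (∀ n, |a' (π n)| = |a n|) ∧
    ∀ k, 0 < |a k| → |a k| < ⨆ n, |a n| → π k = k ∧ a' k = a k

/-- `x` has Property (A) with respect to `N`. -/
def PropertyA (N : Seminorm ℝ V) (x : ℕ → V) : Prop :=
  ∀ (v v' : V) (a a' : ℕ → ℝ), Expands x a v → Expands x a' v' →
    IsGreedyRearrangement a a' → N v = N v'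

/-- `N` is a norm equivalent to the norm of the space. -/
def IsEquivalentNorm (N : Seminorm ℝ V) : Prop :=
  ∃ c C : ℝ, 0 < c ∧ ∀ v, c * ‖v‖ ≤ N v ∧ N v ≤ C * ‖v‖

end Definitions

/-- **Main result.** There are an equivalent norm `N` on real `ℓ_2` and a Schauder basis `x` of
`ℓ_2` which is conditional and has Property (A) with respect to `N`. -/
theorem result : ∃ (N : Seminorm ℝ (lp (fun _ : ℕ => ℝ) 2)) (x : ℕ → lp (fun _ : ℕ => ℝ) 2),
    IsEquivalentNorm N ∧ IsSchauderBasis x ∧ ¬ IsUnconditional x ∧ PropertyA N x := by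
  obtain ⟨B⟩ : Nonempty (HilbertBasis ℕ ℝ (lp (fun _ : ℕ => ℝ) 2)) := ⟨default⟩
  have hu : Orthonormal ℝ (B : ℕ → lp (fun _ : ℕ => ℝ) 2) := B.orthonormal
  have hd : Dense (Submodule.span ℝ (Set.range (B : ℕ → lp (fun _ : ℕ => ℝ) 2)) :
      Set (lp (fun _ : ℕ => ℝ) 2)) := by
    rw [dense_iff_closure_eq, ← Submodule.topologicalClosure_coe, B.dense_span]
    rfl
  refine ⟨X202.CB.newnorm hu, X202.CB.b B, ⟨1 / 14, 247, by norm_num, fun v =>
    ⟨X202.CB.le_newnorm hu hd v, X202.CB.newnorm_le hu v⟩⟩, fun v => ?_, fun h => ?_, ?_⟩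
  · exact ⟨X202.CB.coord B v, X202.CB.expand hu hd v, fun a ha => X202.CB.unique_coord hu ha⟩
  · exact X202.CB.conditional hu fun y => h y _ (X202.CB.expand hu hd y)
  · rintro v v' a a' ha ha' ⟨π, hπ, hfix⟩
    exact X202.CB.propA hu ha ha' π hπ hfix

end Pool.Agent.Results.MP_2eb999_an.ConditionalPropertyA
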